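import Pool.Agent.Run7.h300.RD2.HOL2
/-! Project RD2 (helper500): piece EPS2 (helper300). -/
set_option autoImplicit false
open MeasureTheory Filter Topology Set
open Pool.Agent.Run7.h500.RD Pool.Agent.Run7.h961.RD

namespace Pool.Agent.Run7.h300.RD2

theorem t_EPS2 : S_EPS2 := by
  intro hKER f m k C hcont hk hgr ρ hρ0 hρ1 c w hc hw hzero
  have hint := int_bound' f m k C hcont hgr (by omega) c w hc hw
  have hupm : MeasurableSet up := measurableSet_lt measurable_const measurable_snd
  have himL : ∀ (z : ℝ × ℝ), (w * (z.2 : ℂ) - (z.1 : ℂ) + c).im = w.im * z.2 + c.im := by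
    intro z
    simp
  have hfm : Measurable (fun z : ℝ × ℝ => (f z : ℂ)) := by
    have hf := hcont.measurable
    fun_prop
  have hkm : Measurable (fun z : ℝ × ℝ => Pool.Agent.Run7.h500.RD.ker k c w z) := by
    unfold Pool.Agent.Run7.h500.RD.ker
    fun_prop
  have hEm : ∀ ε : ℝ, Measurable (EE ρ ε) := by
    intro ε
    unfold EE
    fun_prop
  have hLm : Measurable (fun z : ℝ × ℝ => w * (z.2 : ℂ) - (z.1 : ℂ) + c) := by
    fun_prop
  have hεn : ∀ n : ℕ, (0 : ℝ) < 1 / ((n : ℝ) + 1) := fun n => by positivity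
  have hlim : Tendsto (fun n : ℕ => Vp2 f ρ (1 / ((n : ℝ) + 1)) k c w) atTop
      (𝓝 (Vp f k c w)) := by
    unfold Vp2 Vp
    refine tendsto_integral_of_dominated_convergence
      (fun z => ‖(f z : ℂ) * Pool.Agent.Run7.h500.RD.ker k c w z‖) ?_ hint.norm ?_ ?_
    · intro n
      unfold ker2
      exact (hfm.mul (hkm.mul ((hEm _).comp hLm))).aestronglyMeasurable
    · intro n
      refine (ae_restrict_iff' hupm).2 (Eventually.of_forall (fun z hz => ?_))
      have hz2 : 0 < z.2 := hz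
      unfold ker2
      rw [← mul_assoc, norm_mul]
      have h1 : ‖EE ρ (1 / ((n : ℝ) + 1)) (w * (z.2 : ℂ) - (z.1 : ℂ) + c)‖ ≤ 1 := by
        apply (hKER ρ _ hρ0 hρ1 (hεn n)).2.2.1
        rw [himL]
        positivity
      exact mul_le_of_le_one_right (norm_nonneg _) h1
    · refine Eventually.of_forall (fun z => ?_)
      unfold ker2
      have h1 : Tendsto (fun n : ℕ => ((1 / ((n : ℝ) + 1) : ℝ) : ℂ)) atTop (𝓝 ((0 : ℝ) : ℂ)) :=
        (Complex.continuous_ofReal.tendsto 0).comp tendsto_one_div_add_atTop_nhds_zero_nat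
      have h2 : Tendsto (fun n : ℕ => EE ρ (1 / ((n : ℝ) + 1)) (w * (z.2 : ℂ) - (z.1 : ℂ) + c))
          atTop (𝓝 1) := by
        unfold EE
        have h3 := ((h1.mul_const
          ((-Complex.I * (w * (z.2 : ℂ) - (z.1 : ℂ) + c)) ^ (ρ : ℂ))).neg)
        have h4 := (Complex.continuous_exp.tendsto _).comp h3
        rw [Complex.ofReal_zero, zero_mul, neg_zero, Complex.exp_zero] at h4
        exact h4
      have h5 := (h2.const_mul (Pool.Agent.Run7.h500.RD.ker k c w z)).const_mul (f z : ℂ)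
      rw [mul_one] at h5
      exact h5
  have h0 : (fun n : ℕ => Vp2 f ρ (1 / ((n : ℝ) + 1)) k c w) = fun _ => 0 :=
    funext fun n => hzero _ (hεn n)
  rw [h0] at hlim
  exact (tendsto_nhds_unique hlim tendsto_const_nhds)

end Pool.Agent.Run7.h300.RD2
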