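import Pool.Agent.Run7.h961.RD.BND
import Pool.Agent.Run7.h500.RD.Stm2
/-! Project RD2 (helper500): piece HOL2 (helper300, adapting pieces BND of helper961 and HOL of helper62). -/
set_option autoImplicit false
open MeasureTheory Filter Topology Set
open Pool.Agent.Run7.h500.RD Pool.Agent.Run7.h961.RD

namespace Pool.Agent.Run7.h300.RD2

/-- the pointwise bound -/
theorem pt_bound' (f : ℝ × ℝ → ℝ) (m k : ℕ) (C : ℝ)
    (hgr : ∀ x y : ℝ, |f (x, y)| ≤ C * (1 + |x| + |y|) ^ m) (hk : m + 3 ≤ k) (c w : ℂ)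
    (hc : 0 < c.im) (hw : 0 < w.im) (z : ℝ × ℝ) (hz : 0 < z.2) :
    ‖(f z : ℂ) * ker k c w z‖ ≤
      (C * ((c.im) ^ (k - m - 3))⁻¹ * (1 + 1 / c.im) ^ (3/2 : ℝ) *
        (2 * (1 + (1 + |c.re|) / c.im) * (1 + ‖w‖) / w.im) ^ m) *
      ((1 + |z.1 - w.re * z.2 - c.re|) ^ (-(3/2) : ℝ) *
        (w.im * z.2 + c.im) ^ (-(3/2) : ℝ)) := by
  obtain ⟨h1, h2⟩ := q_facts c w z
  have h3 := lin_bound c w hc hw z hz
  have hC : 0 ≤ C := by
    have := hgr 0 0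
    have h0 : 0 ≤ |f (0, 0)| := abs_nonneg _
    simp at this
    linarith
  have hg : |f z| ≤ C * (1 + |z.1| + |z.2|) ^ m := hgr z.1 z.2
  unfold Pool.Agent.Run7.h500.RD.ker
  rw [norm_mul, norm_inv, norm_pow, Complex.norm_real, Real.norm_eq_abs]
  set Q := ‖w * (z.2 : ℂ) - (z.1 : ℂ) + c‖ with hQ
  set T := 2 * (1 + (1 + |c.re|) / c.im) * (1 + ‖w‖) / w.im with hT
  set s := |z.1 - w.re * z.2 - c.re| with hs
  have hs0 : 0 ≤ s := abs_nonneg _
  have hT0 : 0 < T := by positivity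
  have hρ : 0 < w.im * z.2 + c.im := by positivity
  have h1' : w.im * z.2 + c.im ≤ Q := by linarith [mul_comm w.im z.2]
  have hQ0 : 0 < Q := lt_of_lt_of_le hρ h1'
  have hcQ : c.im ≤ Q := by nlinarith [mul_pos hw hz]
  have a1 : |f z| ≤ C * T ^ m * Q ^ m := by
    calc |f z| ≤ C * (1 + |z.1| + |z.2|) ^ m := hg
      _ ≤ C * (T * Q) ^ m := by
          apply mul_le_mul_of_nonneg_left _ hC
          exact pow_le_pow_left₀ (by positivity) h3 m
      _ = C * T ^ m * Q ^ m := by rw [mul_pow]; ring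
  have a2 : Q ^ k = Q ^ m * Q ^ (k - m - 3) * Q ^ 3 := by
    rw [← pow_add, ← pow_add]; congr 1; omega
  have a3 : (Q ^ 3) = Q ^ (3/2 : ℝ) * Q ^ (3/2 : ℝ) := by
    rw [← Real.rpow_add hQ0]
    norm_num
  have b1 : (Q ^ (3/2 : ℝ))⁻¹ ≤ (w.im * z.2 + c.im) ^ (-(3/2) : ℝ) := by
    rw [Real.rpow_neg hρ.le]
    apply inv_anti₀ (Real.rpow_pos_of_pos hρ _)
    exact Real.rpow_le_rpow hρ.le h1' (by norm_num)
  have b2 : (Q ^ (3/2 : ℝ))⁻¹ ≤ (1 + 1 / c.im) ^ (3/2 : ℝ) * (1 + s) ^ (-(3/2) : ℝ) := by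
    have h4 : 1 + s ≤ (1 + 1 / c.im) * Q := by
      have h5 : 1 ≤ Q / c.im := by rw [le_div_iff₀ hc]; linarith
      have h6 : (1 + 1 / c.im) * Q = Q + Q / c.im := by field_simp
      rw [h6]; linarith
    have h7 : (1 + s) ^ (3/2 : ℝ) ≤ (1 + 1 / c.im) ^ (3/2 : ℝ) * Q ^ (3/2 : ℝ) := by
      rw [← Real.mul_rpow (by positivity) hQ0.le]
      exact Real.rpow_le_rpow (by positivity) h4 (by norm_num)
    rw [Real.rpow_neg (by positivity)]
    rw [inv_le_iff_one_le_mul₀ (Real.rpow_pos_of_pos hQ0 _)]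
    have h8 : 0 < (1 + s) ^ (3/2 : ℝ) := Real.rpow_pos_of_pos (by positivity) _
    have h9 : (1 + 1 / c.im) ^ (3/2 : ℝ) * ((1 + s) ^ (3/2 : ℝ))⁻¹ * Q ^ (3/2 : ℝ) =
      ((1 + 1 / c.im) ^ (3/2 : ℝ) * Q ^ (3/2 : ℝ)) / (1 + s) ^ (3/2 : ℝ) := by
      field_simp
    rw [h9, le_div_iff₀ h8]; linarith
  have b3 : (Q ^ (k - m - 3))⁻¹ ≤ ((c.im) ^ (k - m - 3))⁻¹ := by
    apply inv_anti₀ (by positivity)
    exact pow_le_pow_left₀ hc.le hcQ _
  have hr : 0 < Q ^ (3/2 : ℝ) := Real.rpow_pos_of_pos hQ0 _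
  calc |f z| * (Q ^ k)⁻¹ ≤ (C * T ^ m * Q ^ m) * (Q ^ k)⁻¹ :=
        mul_le_mul_of_nonneg_right a1 (by positivity)
    _ = (C * T ^ m) * ((Q ^ (k - m - 3))⁻¹ * ((Q ^ (3/2 : ℝ))⁻¹ * (Q ^ (3/2 : ℝ))⁻¹)) := by
        rw [a2, a3]
        field_simp
    _ ≤ (C * T ^ m) * (((c.im) ^ (k - m - 3))⁻¹ *
          (((1 + 1 / c.im) ^ (3/2 : ℝ) * (1 + s) ^ (-(3/2) : ℝ)) *
            (w.im * z.2 + c.im) ^ (-(3/2) : ℝ))) := by
        apply mul_le_mul_of_nonneg_left _ (by positivity)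
        apply mul_le_mul b3 _ (by positivity) (by positivity)
        apply mul_le_mul b2 b1 (by positivity) (by positivity)
    _ = _ := by ring

/-- integrability of the majorant under the hypotheses that the proof of BND uses -/
theorem int_bound' (f : ℝ × ℝ → ℝ) (m k : ℕ) (C : ℝ) (hcont : Continuous f)
    (hgr : ∀ x y : ℝ, |f (x, y)| ≤ C * (1 + |x| + |y|) ^ m) (hk : m + 3 ≤ k) (c w : ℂ)
    (hc : 0 < c.im) (hw : 0 < w.im) :
    IntegrableOn (fun z => (f z : ℂ) * Pool.Agent.Run7.h500.RD.ker k c w z) up := by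
  have hC : 0 ≤ C := by
    have := hgr 0 0
    have h0 : 0 ≤ |f (0, 0)| := abs_nonneg _
    simp at this
    linarith
  set g1 : ℝ → ℝ := fun s => (1 + |s|) ^ (-(3/2) : ℝ) with hg1
  set h1 : ℝ → ℝ := fun t => (t + c.im) ^ (-(3/2) : ℝ) with hh1
  have ig1 : Integrable g1 := by
    have := integrable_one_add_norm (E := ℝ) (μ := volume) (r := 3/2) (by norm_num)
    simpa [hg1, Real.norm_eq_abs] using this
  have ih1 : IntegrableOn h1 (Ioi 0) := by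
    exact integrableOn_add_rpow_Ioi_of_lt (by norm_num) (by linarith)
  set Ig := ∫ s, g1 s with hIg
  set Ih := ∫ t in Ioi (0:ℝ), h1 t with hIh
  have g1n : ∀ s, 0 ≤ g1 s := fun s => Real.rpow_nonneg (by positivity) _
  have hIg0 : 0 ≤ Ig := integral_nonneg g1n
  have hIh0 : 0 ≤ Ih := by
    apply setIntegral_nonneg measurableSet_Ioi
    intro t ht
    exact Real.rpow_nonneg (by have : (0:ℝ) < t := ht; linarith) _
  set K : ℝ := 2 * (1 + (1 + |c.re|) / c.im) with hK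
  have hK0 : 0 ≤ K := by positivity
  set A1 : ℝ := C * ((c.im) ^ (k - m - 3))⁻¹ * (1 + 1 / c.im) ^ (3/2 : ℝ) with hA1
  have hA10 : 0 ≤ A1 := by positivity
  set B : ℝ := A1 * (K * (1 + ‖w‖) / w.im) ^ m with hB
  have hB0 : 0 ≤ B := by positivity
  have hmeas : Measurable (fun z : ℝ × ℝ => (f z : ℂ) * ker k c w z) := by
    have m1 : Measurable f := hcont.measurable
    unfold Pool.Agent.Run7.h500.RD.ker
    fun_prop
  have hpt : ∀ z : ℝ × ℝ, z ∈ up → ‖(f z : ℂ) * ker k c w z‖ₑ ≤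
      ENNReal.ofReal B * (ENNReal.ofReal (g1 (z.1 - w.re * z.2 - c.re)) *
        ENNReal.ofReal (h1 (w.im * z.2))) := by
    intro z hz
    have hz' : 0 < z.2 := hz
    have := pt_bound' f m k C hgr hk c w hc hw z hz'
    rw [← ENNReal.ofReal_mul (g1n _), ← ENNReal.ofReal_mul hB0, ← ofReal_norm]
    exact ENNReal.ofReal_le_ofReal this
  have hupm : MeasurableSet up := by
    have : up = {z : ℝ × ℝ | 0 < z.2} := rfl
    rw [this]
    exact measurableSet_lt measurable_const measurable_snd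
  have mg1 : Measurable g1 := by
    simp only [hg1]; fun_prop
  have mh1 : Measurable h1 := by
    simp only [hh1]; fun_prop
  have L1 : ∫⁻ s, ENNReal.ofReal (g1 s) = ENNReal.ofReal Ig := by
    rw [hIg, ofReal_integral_eq_lintegral_ofReal ig1 (Eventually.of_forall g1n)]
  have hη : ∫ y in Ioi (0:ℝ), h1 (w.im * y) = w.im⁻¹ * Ih := by
    have := integral_comp_mul_left_Ioi h1 0 hw
    rw [mul_zero, smul_eq_mul] at this
    exact this
  have hηi : IntegrableOn (fun y => h1 (w.im * y)) (Ioi 0) := by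
    rw [integrableOn_Ioi_comp_mul_left_iff h1 0 hw, mul_zero]
    exact ih1
  have L2 : ∫⁻ y in Ioi (0:ℝ), ENNReal.ofReal (h1 (w.im * y)) = ENNReal.ofReal (w.im⁻¹ * Ih) := by
    rw [← hη, ofReal_integral_eq_lintegral_ofReal hηi]
    apply (ae_restrict_iff' measurableSet_Ioi).mpr
    apply Eventually.of_forall
    intro t ht
    exact Real.rpow_nonneg (by have : (0:ℝ) < t := ht; positivity) _
  have L3 : ∫⁻ z in up, ‖(f z : ℂ) * ker k c w z‖ₑ ≤
      ENNReal.ofReal (A1 * K ^ m * Ig * Ih * (1 + ‖w‖) ^ m / w.im ^ (m + 1)) := by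
    calc ∫⁻ z in up, ‖(f z : ℂ) * ker k c w z‖ₑ ≤
        ∫⁻ z in up, ENNReal.ofReal B * (ENNReal.ofReal (g1 (z.1 - w.re * z.2 - c.re)) *
        ENNReal.ofReal (h1 (w.im * z.2))) := setLIntegral_mono' hupm hpt
      _ = ENNReal.ofReal B * ∫⁻ z in up, (ENNReal.ofReal (g1 (z.1 - w.re * z.2 - c.re)) *
        ENNReal.ofReal (h1 (w.im * z.2))) := by
          rw [lintegral_const_mul _ (by fun_prop)]
      _ = ENNReal.ofReal B * ((∫⁻ s, ENNReal.ofReal (g1 s)) *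
            ∫⁻ y in Ioi (0:ℝ), ENNReal.ofReal (h1 (w.im * y))) := by
          congr 1
          exact key (fun s => ENNReal.ofReal (g1 s)) (fun y => ENNReal.ofReal (h1 (w.im * y)))
            (by fun_prop) (by fun_prop) w.re c.re
      _ = ENNReal.ofReal (B * (Ig * (w.im⁻¹ * Ih))) := by
          rw [L1, L2, ← ENNReal.ofReal_mul hIg0, ← ENNReal.ofReal_mul hB0]
      _ = _ := by
          congr 1
          rw [hB, div_pow, mul_pow]
          field_simp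
          ring
  exact by
    refine ⟨hmeas.aestronglyMeasurable, ?_⟩
    exact lt_of_le_of_lt L3 ENNReal.ofReal_lt_top
theorem t_HOL2 : S_HOL2 := by
  intro hKER f ρ0 m k C hk4 hyp ρ ε hpar c hc w0 hw0
  have hη : 0 < w0.im := hw0
  have hρ0 : 0 < ρ := hpar.h0.trans hpar.h1
  have hρ1 : ρ < 1 := hpar.h2
  have hε : 0 < ε := hpar.h3
  obtain ⟨hEd, -, hE1, hED⟩ := hKER ρ ε hρ0 hρ1 hε
  have hEopen : IsOpen {Z : ℂ | 0 < Z.im} := isOpen_lt continuous_const Complex.continuous_im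
  have hintk := int_bound' f m k C hyp.cont hyp.growth (by omega) c w0 hc hη
  have hint := int_bound' f m (k - 1) C hyp.cont hyp.growth (by omega) c w0 hc hη
  have hk0 : k ≠ 0 := by omega
  have himL : ∀ (w : ℂ) (z : ℝ × ℝ), (w * (z.2 : ℂ) - (z.1 : ℂ) + c).im = w.im * z.2 + c.im := by
    intro w z
    simp
  have hσL : ∀ (w : ℂ) (z : ℝ × ℝ), 0 < w.im → 0 < z.2 →
      c.im ≤ ‖w * (z.2 : ℂ) - (z.1 : ℂ) + c‖ := by
    intro w z hw hz
    have h1 := Complex.abs_im_le_norm (w * (z.2 : ℂ) - (z.1 : ℂ) + c)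
    rw [himL] at h1
    have h3 : 0 ≤ w.im * z.2 := by positivity
    have h4 := le_abs_self (w.im * z.2 + c.im)
    linarith
  -- lower bounds
  have hL0 : ∀ z : ℝ × ℝ, 0 < z.2 → w0.im * z.2 ≤ ‖w0 * (z.2 : ℂ) - (z.1 : ℂ) + c‖ := by
    intro z hz
    have h1 := Complex.abs_im_le_norm (w0 * (z.2 : ℂ) - (z.1 : ℂ) + c)
    rw [himL] at h1
    have h3 : 0 ≤ w0.im * z.2 := by positivity
    have h4 := le_abs_self (w0.im * z.2 + c.im)
    linarith
  have hLw : ∀ z : ℝ × ℝ, 0 < z.2 → ∀ w ∈ Metric.ball w0 (w0.im / 2),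
      ‖w0 * (z.2 : ℂ) - (z.1 : ℂ) + c‖ / 2 ≤ ‖w * (z.2 : ℂ) - (z.1 : ℂ) + c‖ := by
    intro z hz w hw
    have h1 : w0 * (z.2 : ℂ) - (z.1 : ℂ) + c
        = (w * (z.2 : ℂ) - (z.1 : ℂ) + c) + (w0 - w) * (z.2 : ℂ) := by ring
    have h2 : ‖w0 * (z.2 : ℂ) - (z.1 : ℂ) + c‖
        ≤ ‖w * (z.2 : ℂ) - (z.1 : ℂ) + c‖ + ‖w0 - w‖ * z.2 := by
      calc ‖w0 * (z.2 : ℂ) - (z.1 : ℂ) + c‖
          = ‖(w * (z.2 : ℂ) - (z.1 : ℂ) + c) + (w0 - w) * (z.2 : ℂ)‖ := by rw [h1]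
        _ ≤ ‖w * (z.2 : ℂ) - (z.1 : ℂ) + c‖ + ‖(w0 - w) * (z.2 : ℂ)‖ := norm_add_le _ _
        _ = ‖w * (z.2 : ℂ) - (z.1 : ℂ) + c‖ + ‖w0 - w‖ * z.2 := by
            rw [norm_mul, Complex.norm_real, Real.norm_of_nonneg hz.le]
    have h3 : ‖w0 - w‖ < w0.im / 2 := by
      rw [← dist_eq_norm, dist_comm]; exact Metric.mem_ball.1 hw
    have h4 : ‖w0 - w‖ * z.2 ≤ w0.im / 2 * z.2 := by
      exact mul_le_mul_of_nonneg_right h3.le hz.le
    have h5 := hL0 z hz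
    linarith
  have hwim : ∀ w ∈ Metric.ball w0 (w0.im / 2), 0 < w.im := by
    intro w hw
    have h3 : ‖w - w0‖ < w0.im / 2 := by
      rw [← dist_eq_norm]; exact Metric.mem_ball.1 hw
    have h4 := Complex.abs_im_le_norm (w - w0)
    rw [Complex.sub_im] at h4
    have h5 := neg_abs_le (w.im - w0.im)
    linarith
  have hEm : Measurable (EE ρ ε) := by
    unfold EE
    fun_prop
  have hLm : ∀ w : ℂ, Measurable (fun z : ℝ × ℝ => w * (z.2 : ℂ) - (z.1 : ℂ) + c) := by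
    intro w
    fun_prop
  have hfm : Measurable (fun z : ℝ × ℝ => (f z : ℂ)) := by
    have hf := hyp.cont.measurable
    fun_prop
  have hkm : ∀ (j : ℕ) (w : ℂ), Measurable (fun z : ℝ × ℝ => Pool.Agent.Run7.h500.RD.ker j c w z) := by
    intro j w
    unfold Pool.Agent.Run7.h500.RD.ker
    fun_prop
  have hmeasF : ∀ w : ℂ, Measurable (fun z : ℝ × ℝ => (f z : ℂ) * ker2 ρ ε k c w z) := by
    intro w
    unfold ker2
    exact hfm.mul ((hkm k w).mul (hEm.comp (hLm w)))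
  let F' : ℂ → ℝ × ℝ → ℂ := fun w z => (f z : ℂ) *
    (-((k : ℂ) * (w * (z.2 : ℂ) - (z.1 : ℂ) + c) ^ (k - 1) * (z.2 : ℂ)) /
      ((w * (z.2 : ℂ) - (z.1 : ℂ) + c) ^ k) ^ 2 * EE ρ ε (w * (z.2 : ℂ) - (z.1 : ℂ) + c) +
      ((w * (z.2 : ℂ) - (z.1 : ℂ) + c) ^ k)⁻¹ *
        (deriv (EE ρ ε) (w * (z.2 : ℂ) - (z.1 : ℂ) + c) * (z.2 : ℂ)))
  have hmeasF' : Measurable (F' w0) := by
    have h1 : Measurable (fun z : ℝ × ℝ =>
        -((k : ℂ) * (w0 * (z.2 : ℂ) - (z.1 : ℂ) + c) ^ (k - 1) * (z.2 : ℂ)) /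
      ((w0 * (z.2 : ℂ) - (z.1 : ℂ) + c) ^ k) ^ 2) := by fun_prop
    have h2 : Measurable (fun z : ℝ × ℝ => ((w0 * (z.2 : ℂ) - (z.1 : ℂ) + c) ^ k)⁻¹) := by
      fun_prop
    have h3 : Measurable (fun z : ℝ × ℝ => (z.2 : ℂ)) := by fun_prop
    exact hfm.mul ((h1.mul (hEm.comp (hLm w0))).add
      (h2.mul (((measurable_deriv (EE ρ ε)).comp (hLm w0)).mul h3)))
  have hupm : MeasurableSet up := measurableSet_lt measurable_const measurable_snd
  have hF0 : Integrable (fun z : ℝ × ℝ => (f z : ℂ) * ker2 ρ ε k c w0 z)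
      ((volume : Measure (ℝ × ℝ)).restrict up) := by
    refine Integrable.mono' hintk.norm (hmeasF w0).aestronglyMeasurable ?_
    refine (ae_restrict_iff' hupm).2 (Eventually.of_forall (fun z hz => ?_))
    have hz2 : 0 < z.2 := hz
    unfold ker2
    rw [← mul_assoc, norm_mul]
    have h1 : ‖EE ρ ε (w0 * (z.2 : ℂ) - (z.1 : ℂ) + c)‖ ≤ 1 := by
      apply hE1
      rw [himL]
      positivity
    exact mul_le_of_le_one_right (norm_nonneg _) h1
  obtain ⟨σ, hσ⟩ : ∃ σ, σ = c.im := ⟨_, rfl⟩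
  have hσ0 : 0 < σ := hσ ▸ hc
  have key := hasDerivAt_integral_of_dominated_loc_of_deriv_le
    (μ := (volume : Measure (ℝ × ℝ)).restrict up)
    (F := fun w z => (f z : ℂ) * ker2 ρ ε k c w z) (F' := F')
    (x₀ := w0) (s := Metric.ball w0 (w0.im / 2))
    (bound := fun z => (k * 2 ^ (k + 1) / (w0.im * σ) + 2 ^ k * (ε * ρ * σ ^ (ρ - 1)) / w0.im) *
      ‖(f z : ℂ) * Pool.Agent.Run7.h500.RD.ker (k - 1) c w0 z‖)
    (Metric.ball_mem_nhds w0 (by positivity))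
    (Eventually.of_forall (fun w => (hmeasF w).aestronglyMeasurable))
    hF0 hmeasF'.aestronglyMeasurable
    (by
      refine (ae_restrict_iff' hupm).2 (Eventually.of_forall (fun z hz w hw => ?_))
      have hz2 : 0 < z.2 := hz
      have hw1 := hwim w hw
      have hl := hLw z hz2 w hw
      have h0 := hL0 z hz2
      have hs := hσL w z hw1 hz2
      have hs0 := hσL w0 z hη hz2
      have hLim : 0 < (w * (z.2 : ℂ) - (z.1 : ℂ) + c).im := by rw [himL]; positivity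
      have hE := hE1 _ hLim
      have hD := hED _ hLim
      rw [← hσ] at hs hs0
      simp only [F', Pool.Agent.Run7.h500.RD.ker]
      set L := w * (z.2 : ℂ) - (z.1 : ℂ) + c with hL
      set L0 := w0 * (z.2 : ℂ) - (z.1 : ℂ) + c with hL0d
      have hLpos : 0 < ‖L‖ := by linarith
      have hL0pos : 0 < ‖L0‖ := by linarith
      have hD2 : ‖deriv (EE ρ ε) L‖ ≤ ε * ρ * σ ^ (ρ - 1) := by
        refine hD.trans (mul_le_mul_of_nonneg_left ?_ (by positivity))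
        exact Real.rpow_le_rpow_of_nonpos hσ0 hs (by linarith)
      have hy : z.2 ≤ ‖L0‖ / w0.im := by
        rw [le_div_iff₀ hη]; linarith
      have hA : ‖-((k : ℂ) * L ^ (k - 1) * (z.2 : ℂ)) / (L ^ k) ^ 2‖ ≤
          (k * 2 ^ (k + 1) / (w0.im * σ)) * (‖L0‖ ^ (k - 1))⁻¹ := by
        rw [norm_div, norm_neg, norm_mul, norm_mul, norm_pow, norm_pow,
          norm_pow, Complex.norm_real, Complex.norm_natCast, Real.norm_of_nonneg hz2.le]
        have e1 : (k : ℝ) * ‖L‖ ^ (k - 1) * z.2 / (‖L‖ ^ k) ^ 2 = k * z.2 / ‖L‖ ^ (k + 1) := by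
          rw [div_eq_div_iff (by positivity) (by positivity)]
          have : ‖L‖ ^ (k - 1) * ‖L‖ ^ (k + 1) = (‖L‖ ^ k) ^ 2 := by
            rw [← pow_add, ← pow_mul]; congr 1; omega
          calc (k : ℝ) * ‖L‖ ^ (k - 1) * z.2 * ‖L‖ ^ (k + 1)
              = k * z.2 * (‖L‖ ^ (k - 1) * ‖L‖ ^ (k + 1)) := by ring
            _ = k * z.2 * (‖L‖ ^ k) ^ 2 := by rw [this]
        rw [e1]
        have e2 : k * z.2 / ‖L‖ ^ (k + 1) ≤ (k * (‖L0‖ / w0.im)) / (‖L0‖ / 2) ^ (k + 1) := by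
          apply div_le_div₀ (by positivity) _ (by positivity)
          · exact pow_le_pow_left₀ (by positivity) hl _
          · exact mul_le_mul_of_nonneg_left hy (by positivity)
        have e3 : (k * (‖L0‖ / w0.im)) / (‖L0‖ / 2) ^ (k + 1)
            = (k * 2 ^ (k + 1) / w0.im) * ((‖L0‖ ^ (k - 1))⁻¹ * ‖L0‖⁻¹) := by
          have e4 : ‖L0‖ ^ (k + 1) = ‖L0‖ ^ (k - 1) * ‖L0‖ * ‖L0‖ := by
            rw [mul_assoc, ← pow_two, ← pow_add]; congr 1; omega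
          rw [div_pow, e4]
          field_simp
        have e5 : ‖L0‖⁻¹ ≤ σ⁻¹ := inv_anti₀ hσ0 hs0
        calc k * z.2 / ‖L‖ ^ (k + 1) ≤ (k * 2 ^ (k + 1) / w0.im) * ((‖L0‖ ^ (k - 1))⁻¹ * ‖L0‖⁻¹) :=
              e2.trans e3.le
          _ ≤ (k * 2 ^ (k + 1) / w0.im) * ((‖L0‖ ^ (k - 1))⁻¹ * σ⁻¹) := by gcongr
          _ = (k * 2 ^ (k + 1) / (w0.im * σ)) * (‖L0‖ ^ (k - 1))⁻¹ := by
              field_simp
      have hB : ‖(L ^ k)⁻¹‖ * (‖deriv (EE ρ ε) L‖ * z.2) ≤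
          (2 ^ k * (ε * ρ * σ ^ (ρ - 1)) / w0.im) * (‖L0‖ ^ (k - 1))⁻¹ := by
        rw [norm_inv, norm_pow]
        have e1 : (‖L‖ ^ k)⁻¹ ≤ ((‖L0‖ / 2) ^ k)⁻¹ :=
          inv_anti₀ (by positivity) (pow_le_pow_left₀ (by positivity) hl _)
        have hσr : 0 ≤ ε * ρ * σ ^ (ρ - 1) := by positivity
        calc (‖L‖ ^ k)⁻¹ * (‖deriv (EE ρ ε) L‖ * z.2)
            ≤ ((‖L0‖ / 2) ^ k)⁻¹ * ((ε * ρ * σ ^ (ρ - 1)) * (‖L0‖ / w0.im)) := by gcongr
          _ = (2 ^ k * (ε * ρ * σ ^ (ρ - 1)) / w0.im) * (‖L0‖ ^ (k - 1))⁻¹ := by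
              have e4 : ‖L0‖ ^ k = ‖L0‖ ^ (k - 1) * ‖L0‖ := by
                rw [← pow_succ]; congr 1; omega
              rw [div_pow, e4]
              field_simp
      rw [norm_mul]
      have hsum : ‖-((k : ℂ) * L ^ (k - 1) * (z.2 : ℂ)) / (L ^ k) ^ 2 * EE ρ ε L +
          (L ^ k)⁻¹ * (deriv (EE ρ ε) L * (z.2 : ℂ))‖ ≤
          (k * 2 ^ (k + 1) / (w0.im * σ) + 2 ^ k * (ε * ρ * σ ^ (ρ - 1)) / w0.im) *
            (‖L0‖ ^ (k - 1))⁻¹ := by
        refine (norm_add_le _ _).trans ?_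
        rw [norm_mul, norm_mul _ (deriv (EE ρ ε) L * (z.2 : ℂ)), norm_mul (deriv (EE ρ ε) L),
          Complex.norm_real, Real.norm_of_nonneg hz2.le, add_mul]
        refine add_le_add ?_ hB
        exact (mul_le_of_le_one_right (norm_nonneg _) hE).trans hA
      have hfin : ‖(f z : ℂ) * (L0 ^ (k - 1))⁻¹‖ = ‖(f z : ℂ)‖ * (‖L0‖ ^ (k - 1))⁻¹ := by
        rw [norm_mul, norm_inv, norm_pow]
      rw [hfin]
      calc _ ≤ ‖(f z : ℂ)‖ * ((k * 2 ^ (k + 1) / (w0.im * σ) +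
            2 ^ k * (ε * ρ * σ ^ (ρ - 1)) / w0.im) * (‖L0‖ ^ (k - 1))⁻¹) :=
            mul_le_mul_of_nonneg_left hsum (norm_nonneg _)
        _ = _ := by ring)
    (hint.norm.const_mul _)
    (by
      refine (ae_restrict_iff' hupm).2 (Eventually.of_forall (fun z hz w hw => ?_))
      have hz2 : 0 < z.2 := hz
      have hw1 := hwim w hw
      have hLim : 0 < (w * (z.2 : ℂ) - (z.1 : ℂ) + c).im := by rw [himL]; positivity
      have hLne : w * (z.2 : ℂ) - (z.1 : ℂ) + c ≠ 0 := by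
        intro h0
        rw [h0, Complex.zero_im] at hLim
        exact lt_irrefl _ hLim
      have hd1 : HasDerivAt (fun w : ℂ => w * (z.2 : ℂ) - (z.1 : ℂ) + c) (z.2 : ℂ) w := by
        have := (((hasDerivAt_id w).mul_const (z.2 : ℂ)).sub_const (z.1 : ℂ)).add_const c
        simpa using this
      have hd2 := hd1.pow k
      have hd3 := hd2.inv (pow_ne_zero k hLne)
      have hE1 : HasDerivAt (EE ρ ε) (deriv (EE ρ ε) (w * (z.2 : ℂ) - (z.1 : ℂ) + c))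
          (w * (z.2 : ℂ) - (z.1 : ℂ) + c) :=
        (hEd.differentiableAt (hEopen.mem_nhds hLim)).hasDerivAt
      have hE2 : HasDerivAt (fun w : ℂ => EE ρ ε (w * (z.2 : ℂ) - (z.1 : ℂ) + c))
          (deriv (EE ρ ε) (w * (z.2 : ℂ) - (z.1 : ℂ) + c) * (z.2 : ℂ)) w := by
        have h5 := HasDerivAt.comp w hE1 hd1
        exact h5
      have hd4 := (hd3.mul hE2).const_mul (f z : ℂ)
      exact hd4)
  exact key.2.differentiableAt.differentiableWithinAt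

end Pool.Agent.Run7.h300.RD2
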