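import Pool.Agent.Run7.h500.RD.Stm2
/-! Project RD2 (helper500): piece VD2 (helper300, adapting piece VD of helper73). -/
set_option autoImplicit false
open MeasureTheory Filter Topology Set

namespace Pool.Agent.Run7.h300.RD2

open Pool.Agent.Run7.h500.RD

theorem t_VD2 : S_VD2 := by
  intro hK hF hH f ρ0 m k C hk hf ρ ε hpar c hc w hw
  have hw' : w.im ≠ 0 := hw
  have hup : IsOpen {w : ℂ | 0 < w.im} := isOpen_lt continuous_const Complex.continuous_im
  have hlow : IsOpen {w : ℂ | w.im < 0} := isOpen_lt Complex.continuous_im continuous_const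
  refine DifferentiableAt.differentiableWithinAt ?_
  rcases lt_or_gt_of_ne hw' with h | h
  · have h1 : DifferentiableOn ℂ (Vp2 (flip f) ρ ε k c) {w : ℂ | 0 < w.im} :=
      hH hK (flip f) ρ0 m k C hk (hF f ρ0 m C hf) ρ ε hpar c hc
    have h2 : DifferentiableAt ℂ (Vp2 (flip f) ρ ε k c) (-w) :=
      h1.differentiableAt (hup.mem_nhds (by simpa using h))
    have h3 : DifferentiableAt ℂ (fun z : ℂ => - Vp2 (flip f) ρ ε k c (-z)) w := by
      have h4 : DifferentiableAt ℂ (fun z : ℂ => -z) w := differentiableAt_id.neg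
      exact (DifferentiableAt.comp w h2 h4).neg
    refine h3.congr_of_eventuallyEq ?_
    filter_upwards [hlow.mem_nhds h] with z hz
    have hz' : ¬ (0 < z.im) := not_lt.mpr (le_of_lt hz)
    simp [V2, hz']
  · have h1 : DifferentiableOn ℂ (Vp2 f ρ ε k c) {w : ℂ | 0 < w.im} :=
      hH hK f ρ0 m k C hk hf ρ ε hpar c hc
    have h2 : DifferentiableAt ℂ (Vp2 f ρ ε k c) w := h1.differentiableAt (hup.mem_nhds h)
    refine h2.congr_of_eventuallyEq ?_
    filter_upwards [hup.mem_nhds h] with z hz
    have hz' : 0 < z.im := hz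
    simp [V2, hz']

end Pool.Agent.Run7.h300.RD2
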